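import Pool.Agent.helper53.ORT.Spec

/-!
# Row ort:QZ: quadratic forms with `{S = 0} ⊆ {B = 0}`

Let `e, f` be a hyperbolic pair for `S`, `m = B e f`. For `w` orthogonal to `e, f` and
`S w w + 2 α β = 0` the vector `w + α e + β f` is singular, so
`B w w - m S w w + 2 α B w e + 2 β B w f = 0`. With `(α, β) = (1, -s/2), (-1, s/2)` this gives
`B w w = m S w w` and `2 B w e = S w w * B w f`.
-/

set_option autoImplicit false

namespace Pool.Agent.ORT

open Module Pool.Agent.GS

theorem QZ_exp {F V : Type} [Field F] [AddCommGroup V] [Module F V] (B : LinearMap.BilinForm F V)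
    (hs : ∀ u v, B u v = B v u) (w e f : V) (α β : F) :
    B (w + α • e + β • f) (w + α • e + β • f) =
      B w w + 2 * α * B w e + 2 * β * B w f + 2 * α * β * B e f + α ^ 2 * B e e
        + β ^ 2 * B f f := by
  simp only [map_add, LinearMap.add_apply, map_smul, LinearMap.smul_apply, smul_eq_mul]
  rw [hs e w, hs f w, hs f e]
  ring

theorem QZ_add {F V : Type} [Field F] [AddCommGroup V] [Module F V] (B : LinearMap.BilinForm F V)
    (hs : ∀ u v, B u v = B v u) (u v : V) :
    B (u + v) (u + v) = B u u + 2 * B u v + B v v := by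
  simp only [map_add, LinearMap.add_apply]
  rw [hs v u]
  ring

theorem QZ_sub {F V : Type} [Field F] [AddCommGroup V] [Module F V] (B : LinearMap.BilinForm F V)
    (hs : ∀ u v, B u v = B v u) (u v : V) :
    B (u - v) (u - v) = B u u - 2 * B u v + B v v := by
  simp only [map_sub, LinearMap.sub_apply]
  rw [hs v u]
  ring

/-- A hyperbolic pair for `S`. -/
theorem QZ_pair (cw : GS.CW_stmt) {F V : Type} [Field F] [Finite F] [AddCommGroup V] [Module F V]
    [FiniteDimensional F V] (B S : LinearMap.BilinForm F V) (h2 : (2 : F) ≠ 0) (hB : Sym B)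
    (hS : ∀ u v, S u v = S v u) (hn : 5 ≤ finrank F V) (hz : ∀ v, S v v = 0 → B v v = 0) :
    ∃ e f : V, S e e = 0 ∧ S e f = 1 ∧ S f f = 0 := by
  have hR : ∀ v, v ∈ LinearMap.ker S ↔ ∀ u, S v u = 0 := by
    intro v
    rw [LinearMap.mem_ker]
    constructor
    · intro h u
      rw [h]
      rfl
    · intro h
      ext u
      exact h u
  obtain ⟨W, hW⟩ := Submodule.exists_isCompl (LinearMap.ker S)
  have hRR : ∀ r ∈ LinearMap.ker S, ∀ r' ∈ LinearMap.ker S, B r r' = 0 := by
    intro r hr r' hr'
    have e1 : B r r = 0 := hz r ((hR r).mp hr r)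
    have e2 : B r' r' = 0 := hz r' ((hR r').mp hr' r')
    have e3 : B (r + r') (r + r') = 0 :=
      hz _ ((hR _).mp (Submodule.add_mem _ hr hr') _)
    rw [QZ_add B hB.symm, e1, e2, zero_add, add_zero] at e3
    exact (mul_eq_zero.mp e3).resolve_left h2
  have hinj : Function.Injective (LinearMap.domRestrict₁₂ B (LinearMap.ker S) W) := by
    rw [injective_iff_map_eq_zero]
    intro r hr
    have h1 : ∀ w ∈ W, B (r : V) w = 0 := by
      intro w hw
      have := LinearMap.congr_fun hr ⟨w, hw⟩
      simpa [LinearMap.domRestrict₁₂_apply] using this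
    apply Subtype.ext
    refine hB.nd _ ?_
    intro v
    have hv : v ∈ LinearMap.ker S ⊔ W := by
      rw [hW.sup_eq_top]
      trivial
    obtain ⟨x, hx, y, hy, rfl⟩ := Submodule.mem_sup.mp hv
    rw [map_add, hRR r r.2 x hx, h1 y hy, add_zero]
  have hle : finrank F (LinearMap.ker S) ≤ finrank F W := by
    have h1 := LinearMap.finrank_le_finrank_of_injective hinj
    rwa [Subspace.dual_finrank_eq] at h1
  have hsum := Submodule.finrank_add_eq_of_isCompl hW
  have hW3 : 3 ≤ finrank F W := by omega
  obtain ⟨⟨w, hw0, hww⟩, _⟩ := cw (F := F) (W := W) (LinearMap.domRestrict₁₂ S W W) hW3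
  rw [LinearMap.domRestrict₁₂_apply] at hww
  have hwR : (w : V) ∉ LinearMap.ker S := by
    intro h
    apply hw0
    have h1 : (w : V) ∈ LinearMap.ker S ⊓ W := ⟨h, w.2⟩
    rw [hW.inf_eq_bot] at h1
    exact Subtype.ext ((Submodule.mem_bot F).mp h1)
  obtain ⟨g, hg⟩ : ∃ g, S (w : V) g ≠ 0 := by
    by_contra hcon
    push Not at hcon
    exact hwR ((hR _).mpr hcon)
  have h1 : S (w : V) ((S (w : V) g)⁻¹ • g) = 1 := by
    rw [map_smul, smul_eq_mul, inv_mul_cancel₀ hg]
  obtain ⟨f, hf⟩ : ∃ f, S (w : V) f = 1 := ⟨_, h1⟩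
  refine ⟨(w : V), f - (S f f / 2) • (w : V), hww, ?_, ?_⟩
  · rw [map_sub, map_smul, hww, hf, smul_zero, sub_zero]
  · rw [QZ_sub S hS]
    simp only [map_smul, LinearMap.smul_apply, smul_eq_mul, hww]
    rw [hS f (w : V), hf]
    field_simp
    ring

theorem QZ (cw : GS.CW_stmt) : QZ_stmt := by
  intro F V _ _ _ _ _ B S h2c hB hS hn hz
  have h2 : (2 : F) ≠ 0 := Ring.two_ne_zero h2c
  obtain ⟨e, f, hee, hef, hff⟩ := QZ_pair cw B S h2 hB hS hn hz
  have hfe : S f e = 1 := by rw [hS, hef]
  have hBee : B e e = 0 := hz e hee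
  have hBff : B f f = 0 := hz f hff
  obtain ⟨m, hm⟩ : ∃ m, m = B e f := ⟨_, rfl⟩
  have key : ∀ w, S w e = 0 → S w f = 0 → ∀ α β : F, S w w + 2 * α * β = 0 →
      B w w - m * S w w + 2 * α * B w e + 2 * β * B w f = 0 := by
    intro w he hf α β h
    have h1 : S (w + α • e + β • f) (w + α • e + β • f) = 0 := by
      rw [QZ_exp S hS, he, hf, hef, hee, hff]
      linear_combination h
    have h3 := hz _ h1
    rw [QZ_exp B hB.symm, hBee, hBff, ← hm] at h3
    linear_combination h3 - m * h
  have hcab : ∀ w, S w e = 0 → S w f = 0 →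
      B w w = m * S w w ∧ 2 * B w e = S w w * B w f ∧ (S w w = 0 → B w f = 0) := by
    intro w he hf
    by_cases hs : S w w = 0
    · have k0 := key w he hf 0 0 (by rw [hs]; ring)
      have k1 := key w he hf 1 0 (by rw [hs]; ring)
      have k2 := key w he hf 0 1 (by rw [hs]; ring)
      have b0 : B w f = 0 := by
        have : 2 * B w f = 0 := by linear_combination k2 - k0
        exact (mul_eq_zero.mp this).resolve_left h2
      refine ⟨by linear_combination k0, ?_, fun _ => b0⟩
      rw [b0]
      linear_combination k1 - k0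
    · have k1 := key w he hf 1 (-(S w w) / 2) (by field_simp; ring)
      have k2 := key w he hf (-1) (S w w / 2) (by field_simp; ring)
      have e1 : 2 * (-(S w w) / 2) * B w f = -(S w w * B w f) := by field_simp
      have e2 : 2 * (S w w / 2) * B w f = S w w * B w f := by field_simp
      rw [e1] at k1
      rw [e2] at k2
      refine ⟨?_, ?_, fun h => absurd h hs⟩
      · have h3 : 2 * (B w w - m * S w w) = 0 := by linear_combination k1 + k2
        have := (mul_eq_zero.mp h3).resolve_left h2
        linear_combination this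
      · have h3 : 2 * (2 * B w e - S w w * B w f) = 0 := by linear_combination k1 - k2
        have := (mul_eq_zero.mp h3).resolve_left h2
        linear_combination this
  have hdec : ∀ v, ∃ w, S w e = 0 ∧ S w f = 0 ∧ v = w + (S v f) • e + (S v e) • f := by
    intro v
    refine ⟨v - (S v f) • e - (S v e) • f, ?_, ?_, ?_⟩
    · simp only [map_sub, LinearMap.sub_apply, map_smul, LinearMap.smul_apply, smul_eq_mul, hee,
        hfe]
      ring
    · simp only [map_sub, LinearMap.sub_apply, map_smul, LinearMap.smul_apply, smul_eq_mul, hef,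
        hff]
      ring
    · abel
  have hRad : ∀ r, (∀ v, S r v = 0) → r = 0 := by
    intro r hr
    refine hB.nd r ?_
    intro v
    obtain ⟨h1, h3, h4⟩ := hcab r (hr e) (hr f)
    rw [hr r] at h1 h3
    have hre : B r e = 0 := by
      rw [zero_mul] at h3
      exact (mul_eq_zero.mp h3).resolve_left h2
    have hrf : B r f = 0 := h4 (hr r)
    obtain ⟨w, hwe, hwf, hv⟩ := hdec v
    have h5 := (hcab w hwe hwf).1
    have h6 := (hcab (r + w) (by rw [map_add, LinearMap.add_apply, hr, hwe, add_zero])
      (by rw [map_add, LinearMap.add_apply, hr, hwf, add_zero])).1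
    rw [QZ_add B hB.symm, QZ_add S hS, hr r, hr w, h5] at h6
    have h7 : 2 * B r w = 0 := by linear_combination h6 - h1
    have h8 : B r w = 0 := (mul_eq_zero.mp h7).resolve_left h2
    rw [hv]
    simp only [map_add, map_smul, smul_eq_mul, h8, hre, hrf]
    ring
  have hker : ∀ w, S w e = 0 → S w f = 0 → B w f = 0 := by
    intro w0 h0e h0f
    by_contra hb
    have st1 : ∀ u, S u e = 0 → S u f = 0 → B u f = 0 → S u u = 0 ∧ S w0 u = 0 := by
      intro u hue huf hbu
      have a1 := (hcab u hue huf).2.1
      rw [hbu, mul_zero] at a1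
      have a2 : B u e = 0 := (mul_eq_zero.mp a1).resolve_left h2
      have a3 := (hcab w0 h0e h0f).2.1
      have a4 := (hcab (w0 + u) (by rw [map_add, LinearMap.add_apply, h0e, hue, add_zero])
        (by rw [map_add, LinearMap.add_apply, h0f, huf, add_zero])).2.1
      have a5 := (hcab (w0 - u) (by rw [map_sub, LinearMap.sub_apply, h0e, hue, sub_zero])
        (by rw [map_sub, LinearMap.sub_apply, h0f, huf, sub_zero])).2.1
      rw [QZ_add S hS, map_add, LinearMap.add_apply, LinearMap.add_apply, hbu, a2, add_zero,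
        add_zero] at a4
      rw [QZ_sub S hS, map_sub, LinearMap.sub_apply, LinearMap.sub_apply, hbu, a2, sub_zero,
        sub_zero] at a5
      have b1 : (2 * S w0 u + S u u) * B w0 f = 0 := by linear_combination a3 - a4
      have b2 : (-(2 * S w0 u) + S u u) * B w0 f = 0 := by linear_combination a3 - a5
      have c1 := (mul_eq_zero.mp b1).resolve_right hb
      have c2 := (mul_eq_zero.mp b2).resolve_right hb
      have d1 : 2 * S u u = 0 := by linear_combination c1 + c2
      have d2 : S u u = 0 := (mul_eq_zero.mp d1).resolve_left h2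
      have d3 : 2 * S w0 u = 0 := by linear_combination c1 - d2
      exact ⟨d2, (mul_eq_zero.mp d3).resolve_left h2⟩
    have st2 : ∀ u, S u e = 0 → S u f = 0 → B u f = 0 → u = 0 := by
      intro u hue huf hbu
      refine hRad u ?_
      intro v
      obtain ⟨w, hwe, hwf, hv⟩ := hdec v
      obtain ⟨u', hu'⟩ : ∃ u', u' = w - (B w f / B w0 f) • w0 := ⟨_, rfl⟩
      have g1 : S u' e = 0 := by
        rw [hu', map_sub, LinearMap.sub_apply, map_smul, LinearMap.smul_apply, hwe, h0e, smul_zero,
          sub_zero]
      have g2 : S u' f = 0 := by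
        rw [hu', map_sub, LinearMap.sub_apply, map_smul, LinearMap.smul_apply, hwf, h0f, smul_zero,
          sub_zero]
      have g3 : B u' f = 0 := by
        rw [hu', map_sub, LinearMap.sub_apply, map_smul, LinearMap.smul_apply, smul_eq_mul,
          div_mul_cancel₀ _ hb, sub_self]
      have i1 := (st1 u hue huf hbu).1
      have i2 := (st1 u hue huf hbu).2
      have i3 := (st1 u' g1 g2 g3).1
      have i4 := (st1 (u + u') (by rw [map_add, LinearMap.add_apply, hue, g1, add_zero])
        (by rw [map_add, LinearMap.add_apply, huf, g2, add_zero])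
        (by rw [map_add, LinearMap.add_apply, hbu, g3, add_zero])).1
      rw [QZ_add S hS, i1, i3] at i4
      have i5 : 2 * S u u' = 0 := by linear_combination i4
      have i6 : S u u' = 0 := (mul_eq_zero.mp i5).resolve_left h2
      have i7 : S u w0 = 0 := by rw [hS, i2]
      have i8 : S u w = 0 := by
        have : w = u' + (B w f / B w0 f) • w0 := by rw [hu']; abel
        rw [this, map_add, map_smul, i6, i7, smul_zero, add_zero]
      rw [hv]
      simp only [map_add, map_smul, smul_eq_mul, i8, hue, huf]
      ring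
    have hinj : Function.Injective
        ((S.flip e).prod ((S.flip f).prod (B.flip f)) : V →ₗ[F] F × F × F) := by
      rw [injective_iff_map_eq_zero]
      intro u hu
      have hu1 : S u e = 0 := congrArg Prod.fst hu
      have hu2 : S u f = 0 := congrArg (fun z : F × F × F => z.2.1) hu
      have hu3 : B u f = 0 := congrArg (fun z : F × F × F => z.2.2) hu
      exact st2 u hu1 hu2 hu3
    have h3 := LinearMap.finrank_le_finrank_of_injective hinj
    rw [Module.finrank_prod, Module.finrank_prod, Module.finrank_self] at h3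
    omega
  have hker' : ∀ w, S w e = 0 → S w f = 0 → B w e = 0 := by
    intro w he hf
    have h1 := (hcab w he hf).2.1
    rw [hker w he hf, mul_zero] at h1
    exact (mul_eq_zero.mp h1).resolve_left h2
  have hdiag : ∀ v, B v v = m * S v v := by
    intro v
    obtain ⟨w, hwe, hwf, hv⟩ := hdec v
    rw [hv, QZ_exp B hB.symm, QZ_exp S hS, hwe, hwf, hef, hee, hff, hBee, hBff, hker w hwe hwf,
      hker' w hwe hwf, (hcab w hwe hwf).1, ← hm]
    ring
  refine ⟨m, fun u v => ?_⟩
  have h1 := hdiag (u + v)
  rw [QZ_add B hB.symm, QZ_add S hS, hdiag u, hdiag v] at h1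
  have h3 : 2 * (B u v - m * S u v) = 0 := by linear_combination h1
  have := (mul_eq_zero.mp h3).resolve_left h2
  linear_combination this

end Pool.Agent.ORT
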